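import Mathlib

/-!
Definitions for self-dual minor-closed systems of (infinite) independence structures on subsets of
a fixed set `S`.
-/

set_option autoImplicit false

namespace Pool.Agent.TH427.BM

universe u

variable {S : Type u}

/-- `𝓘` is a pre-independence space on `W`: a family of subsets of `W` containing `∅`, closed under
subsets, with the exchange property for finite members. -/
def PreIndependenceSpace (W : Set S) (𝓘 : Set (Set S)) : Prop :=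
  (∀ X ∈ 𝓘, X ⊆ W) ∧ ∅ ∈ 𝓘 ∧ (∀ X ∈ 𝓘, ∀ Y ⊆ X, Y ∈ 𝓘) ∧
    ∀ X ∈ 𝓘, ∀ Y ∈ 𝓘, X.Finite → Y.Finite → X.ncard < Y.ncard → ∃ e ∈ Y \ X, insert e X ∈ 𝓘

/-- `𝓘` is an independence space on `W`: a pre-independence space of finite character. -/
def IndependenceSpace (W : Set S) (𝓘 : Set (Set S)) : Prop :=
  PreIndependenceSpace W 𝓘 ∧ ∀ Y ⊆ W, (∀ F ⊆ Y, F.Finite → F ∈ 𝓘) → Y ∈ 𝓘

/-- the maximal members of `{Y ∈ 𝓘 : Y ⊆ X}` -/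
def maxMembers (𝓘 : Set (Set S)) (X : Set S) : Set (Set S) :=
  {B | B ∈ 𝓘 ∧ B ⊆ X ∧ ∀ Y ∈ 𝓘, Y ⊆ X → B ⊆ Y → Y = B}

/-- `𝓘` is a B-matroid on `W`. -/
def BMatroid (W : Set S) (𝓘 : Set (Set S)) : Prop :=
  (∀ X ∈ 𝓘, X ⊆ W) ∧ ∅ ∈ 𝓘 ∧ (∀ X ∈ 𝓘, ∀ Y ⊆ X, Y ∈ 𝓘) ∧
    ∀ X ⊆ W, (∀ T ∈ 𝓘, T ⊆ X → ∃ B ∈ maxMembers 𝓘 X, T ⊆ B) ∧
      ∀ B₁ ∈ maxMembers 𝓘 X, ∀ B₂ ∈ maxMembers 𝓘 X, ∀ x ∈ B₁ \ B₂,
        ∃ y ∈ B₂ \ B₁, insert y (B₁ \ {x}) ∈ maxMembers 𝓘 X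

/-- the bases of `𝓘`: its maximal members -/
def bases (𝓘 : Set (Set S)) : Set (Set S) := {B | B ∈ 𝓘 ∧ ∀ Y ∈ 𝓘, B ⊆ Y → Y = B}

/-- the restriction of `𝓘` to `Z` -/
def restriction (𝓘 : Set (Set S)) (Z : Set S) : Set (Set S) := {Y | Y ⊆ Z ∧ Y ∈ 𝓘}

/-- the contraction of `𝓘` to `Z`, computed with the basis `B` of the restriction to `W \ Z` -/
def contraction (𝓘 : Set (Set S)) (Z B : Set S) : Set (Set S) := {Y | Y ⊆ Z ∧ Y ∪ B ∈ 𝓘}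

/-- the dual of `𝓘` on `W` -/
def dual (W : Set S) (𝓘 : Set (Set S)) : Set (Set S) := {X | X ⊆ W ∧ ∃ B ∈ bases 𝓘, B ⊆ W \ X}

/-- `𝓓` is an admissible system: each `𝓓 W` is a set of pre-independence spaces on `W`, the system
is closed under restrictions and (well defined) contractions, and duality maps `𝓓 W` to itself and
is an involution on it. -/
def Admissible (𝓓 : Set S → Set (Set (Set S))) : Prop :=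
  (∀ W, ∀ 𝓘 ∈ 𝓓 W, PreIndependenceSpace W 𝓘) ∧
  (∀ W, ∀ Z ⊆ W, ∀ 𝓘 ∈ 𝓓 W, restriction 𝓘 Z ∈ 𝓓 Z ∧
    (bases (restriction 𝓘 (W \ Z))).Nonempty ∧
    (∀ B ∈ bases (restriction 𝓘 (W \ Z)), ∀ B' ∈ bases (restriction 𝓘 (W \ Z)),
      contraction 𝓘 Z B = contraction 𝓘 Z B') ∧
    ∀ B ∈ bases (restriction 𝓘 (W \ Z)), contraction 𝓘 Z B ∈ 𝓓 Z) ∧
  ∀ W, ∀ 𝓘 ∈ 𝓓 W, dual W 𝓘 ∈ 𝓓 W ∧ dual W (dual W 𝓘) = 𝓘

/-- `𝓓` is closed under direct sums, also infinite ones: if `W` is the disjoint union of the sets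
`P i` and `𝓙 i ∈ 𝓓 (P i)` for all `i`, then the family of all `X ⊆ W` with `X ∩ P i ∈ 𝓙 i` for all
`i` is in `𝓓 W`. -/
def ClosedUnderSums (𝓓 : Set S → Set (Set (Set S))) : Prop :=
  ∀ (ι : Type u) (P : ι → Set S), Pairwise (fun i j => Disjoint (P i) (P j)) →
    ∀ 𝓙 : ι → Set (Set S), (∀ i, 𝓙 i ∈ 𝓓 (P i)) →
      {X : Set S | X ⊆ ⋃ i, P i ∧ ∀ i, X ∩ P i ∈ 𝓙 i} ∈ 𝓓 (⋃ i, P i)

end Pool.Agent.TH427.BM
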