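import Mathlib
import Pool.Agent.TH427.BDefs

/-!
Matroids in which infinite circuits and infinite cocircuits are disjoint form an admissible system.
-/

set_option autoImplicit false

namespace Pool.Agent.TH427.BM

open Set Matroid

universe u

variable {S : Type u}

/-- the independent sets of a matroid -/
def fam (M : Matroid S) : Set (Set S) := {X | M.Indep X}

lemma mem_fam {M : Matroid S} {X : Set S} : X ∈ fam M ↔ M.Indep X := Iff.rfl

lemma fam_inj {M N : Matroid S} (hE : M.E = N.E) (h : fam M = fam N) : M = N := by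
  refine ext_indep hE fun I _ => ?_
  exact ⟨fun hI => (Set.ext_iff.1 h I).1 hI, fun hI => (Set.ext_iff.1 h I).2 hI⟩

lemma pre_fam (M : Matroid S) : PreIndependenceSpace M.E (fam M) := by
  refine ⟨fun X hX => hX.subset_ground, M.empty_indep, fun X hX Y hY => hX.subset hY, ?_⟩
  intro X hX Y hY hXf hYf hlt
  have h : X.encard < Y.encard := by
    rw [← hXf.cast_ncard_eq, ← hYf.cast_ncard_eq]
    exact_mod_cast hlt
  obtain ⟨e, he, hi⟩ := hX.augment hY h
  exact ⟨e, he, hi⟩

lemma maxMembers_fam (M : Matroid S) (X : Set S) :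
    maxMembers (fam M) X = {B | M.IsBasis' B X} := by
  ext B
  constructor
  · rintro ⟨h1, h2, h3⟩
    refine ⟨⟨h1, h2⟩, fun Y hY hBY => ?_⟩
    exact (h3 Y hY.1 hY.2 hBY).le
  · intro h
    refine ⟨h.indep, h.subset, fun Y hY hYX hBY => ?_⟩
    exact (h.eq_of_subset_indep hY hBY hYX).symm

lemma bases_fam (M : Matroid S) : bases (fam M) = {B | M.IsBase B} := by
  ext B
  constructor
  · rintro ⟨h1, h2⟩
    rw [Set.mem_ofPred_eq, isBase_iff_maximal_indep]
    exact ⟨h1, fun Y hY hBY => (h2 Y hY hBY).le⟩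
  · intro h
    exact ⟨h.indep, fun Y hY hBY => (h.eq_of_subset_indep hY hBY).symm⟩

lemma bmat_fam (M : Matroid S) : BMatroid M.E (fam M) := by
  refine ⟨fun X hX => hX.subset_ground, M.empty_indep, fun X hX Y hY => hX.subset hY, ?_⟩
  intro X hX
  rw [maxMembers_fam]
  refine ⟨?_, ?_⟩
  · intro T hT hTX
    obtain ⟨B, hB, hTB⟩ := (mem_fam.1 hT).subset_isBasis'_of_subset hTX
    exact ⟨B, hB, hTB⟩
  · intro B₁ h₁ B₂ h₂ x hx
    have h1 : (M ↾ X).IsBase B₁ := (isBase_restrict_iff' ).2 h₁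
    have h2 : (M ↾ X).IsBase B₂ := (isBase_restrict_iff' ).2 h₂
    obtain ⟨y, hy, hy'⟩ := h1.exchange h2 hx
    exact ⟨y, hy, (isBase_restrict_iff').1 hy'⟩

lemma restriction_fam (M : Matroid S) (Z : Set S) :
    restriction (fam M) Z = fam (M ↾ Z) := by
  ext Y
  simp only [restriction, fam, Set.mem_ofPred_eq, restrict_indep_iff]
  tauto

lemma contraction_fam {M : Matroid S} {Z B : Set S} (_hZ : Z ⊆ M.E)
    (hB : B ∈ bases (restriction (fam M) (M.E \ Z))) :
    contraction (fam M) Z B = fam (M ／ (M.E \ Z)) := by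
  rw [restriction_fam, bases_fam] at hB
  have hB' : M.IsBasis B (M.E \ Z) := (isBase_restrict_iff sdiff_subset).1 hB
  ext Y
  simp only [contraction, fam, Set.mem_ofPred_eq]
  rw [hB'.contract_indep_iff]
  constructor
  · rintro ⟨h1, h2⟩
    refine ⟨h2, ?_⟩
    exact disjoint_sdiff_left.mono_right h1
  · rintro ⟨h1, h2⟩
    refine ⟨?_, h1⟩
    intro y hy
    by_contra hyZ
    exact (Set.disjoint_left.1 h2) ⟨(h1.subset_ground (Or.inl hy)), hyZ⟩ hy

lemma dual_fam (M : Matroid S) : Pool.Agent.TH427.BM.dual M.E (fam M) = fam M✶ := by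
  ext X
  rw [mem_fam, dual_indep_iff_exists', Pool.Agent.TH427.BM.dual, bases_fam, Set.mem_ofPred_eq]
  constructor
  · rintro ⟨h1, B, hB, hBX⟩
    exact ⟨h1, B, hB, (disjoint_sdiff_left.mono_left hBX).symm⟩
  · rintro ⟨h1, B, hB, hd⟩
    exact ⟨h1, B, hB, Set.subset_sdiff.2 ⟨hB.subset_ground, hd.symm⟩⟩

/-- infinite circuits and infinite cocircuits are disjoint -/
def Sep (M : Matroid S) : Prop :=
  ∀ C K, M.IsCircuit C → M.IsCocircuit K → C.Infinite → K.Infinite → Disjoint C K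

lemma Sep.dual {M : Matroid S} (h : Sep M) : Sep M✶ := by
  intro C K hC hK hCi hKi
  rw [dual_isCocircuit_iff] at hK
  exact (h K C hK hC hKi hCi).symm

lemma Sep.contract {M : Matroid S} (h : Sep M) (X : Set S) : Sep (M ／ X) := by
  intro C K hC hK hCi hKi
  obtain ⟨C', hC', hCC', -⟩ := hC.exists_subset_isCircuit_of_contract
  exact (h C' K hC' hK.of_contract (hCi.mono hCC') hKi).mono_left hCC'

lemma Sep.restrict {M : Matroid S} (h : Sep M) {Z : Set S} (hZ : Z ⊆ M.E) : Sep (M ↾ Z) := by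
  have h1 : M ↾ Z = (M✶ ／ (M.E \ Z))✶ := by
    rw [dual_contract_dual]
    rw [delete_eq_restrict, Set.sdiff_sdiff_cancel_left hZ]
  rw [h1]
  exact (h.dual.contract _).dual

lemma sep_of_finitary {M : Matroid S} [M.Finitary] : Sep M := by
  intro C K hC _ hCi _
  exact absurd hC.finite hCi

/-- the system of all (families of independent sets of) matroids with property `Sep` -/
def sys (W : Set S) : Set (Set (Set S)) := {𝓘 | ∃ M : Matroid S, M.E = W ∧ fam M = 𝓘 ∧ Sep M}

lemma sys_admissible : Admissible (sys (S := S)) := by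
  refine ⟨?_, ?_, ?_⟩
  · rintro W _ ⟨M, rfl, rfl, -⟩
    exact pre_fam M
  · rintro W Z hZ _ ⟨M, rfl, rfl, hM⟩
    refine ⟨?_, ?_, ?_, ?_⟩
    · rw [restriction_fam]
      exact ⟨M ↾ Z, rfl, rfl, hM.restrict hZ⟩
    · rw [restriction_fam, bases_fam]
      exact (M ↾ (M.E \ Z)).exists_isBase
    · intro B hB B' hB'
      rw [contraction_fam hZ hB, contraction_fam hZ hB']
    · intro B hB
      rw [contraction_fam hZ hB]
      refine ⟨M ／ (M.E \ Z), ?_, rfl, hM.contract _⟩
      rw [contract_ground, Set.sdiff_sdiff_cancel_left hZ]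
  · rintro W _ ⟨M, rfl, rfl, hM⟩
    refine ⟨?_, ?_⟩
    · rw [dual_fam]
      exact ⟨M✶, rfl, rfl, hM.dual⟩
    · rw [dual_fam, show M.E = M✶.E from rfl, dual_fam, dual_dual]

/-- every independence space is the family of independent sets of a finitary matroid -/
lemma exists_finitary {W : Set S} {𝓘 : Set (Set S)} (h : IndependenceSpace W 𝓘) :
    ∃ M : Matroid S, M.E = W ∧ fam M = 𝓘 ∧ M.Finitary := by
  obtain ⟨⟨h1, h2, h3, h4⟩, h5⟩ := h
  let N : IndepMatroid S := IndepMatroid.ofFinitaryCardAugment W (fun X => X ∈ 𝓘) h2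
    (fun I J hJ hIJ => h3 J hJ I hIJ)
    (fun I J hI hIf hJ hJf hlt => by
      obtain ⟨e, he, hi⟩ := h4 I hI J hJ hIf hJf hlt
      exact ⟨e, he.1, he.2, hi⟩)
    (fun I hI => by
      refine h5 I ?_ hI
      intro x hx
      exact h1 {x} (hI {x} (by simpa using hx) (Set.finite_singleton x)) rfl)
    (fun I hI => h1 I hI)
  refine ⟨N.matroid, rfl, ?_, ?_⟩
  · ext X
    exact Iff.rfl
  · exact IndepMatroid.ofFinitaryCardAugment_finitary _ _ _ _ _ _ _

lemma sys_indep {W : Set S} {𝓘 : Set (Set S)} (h : IndependenceSpace W 𝓘) : 𝓘 ∈ sys W := by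
  obtain ⟨M, hE, hM, hf⟩ := exists_finitary h
  exact ⟨M, hE, hM, sep_of_finitary⟩

section sums

variable {ι : Type u} {M : ι → Matroid S} {h : Pairwise (Function.onFun Disjoint fun i => (M i).E)}

lemma sum_circuit {C : Set S} (hC : (Matroid.disjointSigma M h).IsCircuit C) :
    ∃ i, C ⊆ (M i).E ∧ (M i).IsCircuit C := by
  have hCE : C ⊆ ⋃ i, (M i).E := by simpa using hC.subset_ground
  have h1 : ∃ i, ¬ (M i).Indep (C ∩ (M i).E) := by
    by_contra hcon
    push Not at hcon
    exact hC.not_indep (disjointSigma_indep_iff.2 ⟨hcon, hCE⟩)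
  obtain ⟨i, hi⟩ := h1
  have h2 : ¬ (Matroid.disjointSigma M h).Indep (C ∩ (M i).E) := by
    intro hcon
    have := (disjointSigma_indep_iff.1 hcon).1 i
    rw [Set.inter_assoc, Set.inter_self] at this
    exact hi this
  have h3 : C ∩ (M i).E = C := hC.eq_of_not_indep_subset h2 Set.inter_subset_left
  have h4 : C ⊆ (M i).E := Set.inter_eq_left.1 h3
  refine ⟨i, h4, ?_⟩
  rw [isCircuit_iff_forall_ssubset]
  refine ⟨⟨by rwa [h3] at hi, h4⟩, fun I hI => ?_⟩
  have h5 := (disjointSigma_indep_iff.1 (hC.ssubset_indep hI)).1 i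
  rwa [Set.inter_eq_left.2 (hI.subset.trans h4)] at h5

lemma sum_dual_indep {X : Set S} :
    (Matroid.disjointSigma M h)✶.Indep X ↔ (∀ i, (M i)✶.Indep (X ∩ (M i).E)) ∧
      X ⊆ ⋃ i, (M i).E := by
  constructor
  · intro hX
    rw [dual_indep_iff_exists'] at hX
    obtain ⟨h1, B, hB, hd⟩ := hX
    rw [disjointSigma_ground_eq] at h1
    refine ⟨fun i => ?_, h1⟩
    rw [dual_indep_iff_exists']
    refine ⟨Set.inter_subset_right, B ∩ (M i).E, (disjointSigma_isBase_iff.1 hB).1 i, ?_⟩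
    exact hd.mono Set.inter_subset_left Set.inter_subset_left
  · rintro ⟨h1, h2⟩
    rw [dual_indep_iff_exists']
    refine ⟨by rwa [disjointSigma_ground_eq], ?_⟩
    have h3 : ∀ i, ∃ B, (M i).IsBase B ∧ Disjoint (X ∩ (M i).E) B := fun i =>
      ((dual_indep_iff_exists' ).1 (h1 i)).2
    choose B hB hd using h3
    have hBi : ∀ i, (⋃ j, B j) ∩ (M i).E = B i := by
      intro i
      ext x
      constructor
      · rintro ⟨hx, hxi⟩
        obtain ⟨j, hj⟩ := Set.mem_iUnion.1 hx
        by_cases hij : i = j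
        · rw [hij]; exact hj
        · exact absurd ((hB j).subset_ground hj) (Set.disjoint_left.1 (h hij) hxi)
      · intro hx
        exact ⟨Set.mem_iUnion.2 ⟨i, hx⟩, (hB i).subset_ground hx⟩
    refine ⟨⋃ i, B i, disjointSigma_isBase_iff.2 ⟨fun i => ?_, ?_⟩, ?_⟩
    · rw [hBi i]; exact hB i
    · exact Set.iUnion_mono fun i => (hB i).subset_ground
    · rw [Set.disjoint_left]
      intro x hxX hxB
      obtain ⟨j, hj⟩ := Set.mem_iUnion.1 hxB
      exact Set.disjoint_left.1 (hd j) ⟨hxX, (hB j).subset_ground hj⟩ hj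

lemma sum_cocircuit {C : Set S} (hC : (Matroid.disjointSigma M h).IsCocircuit C) :
    ∃ i, C ⊆ (M i).E ∧ (M i).IsCocircuit C := by
  rw [isCocircuit_def] at hC
  have hCE : C ⊆ ⋃ i, (M i).E := by simpa using hC.subset_ground
  have h1 : ∃ i, ¬ (M i)✶.Indep (C ∩ (M i).E) := by
    by_contra hcon
    push Not at hcon
    exact hC.not_indep (sum_dual_indep.2 ⟨hcon, hCE⟩)
  obtain ⟨i, hi⟩ := h1
  have h2 : ¬ (Matroid.disjointSigma M h)✶.Indep (C ∩ (M i).E) := by
    intro hcon
    have := (sum_dual_indep.1 hcon).1 i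
    rw [Set.inter_assoc, Set.inter_self] at this
    exact hi this
  have h3 : C ∩ (M i).E = C := hC.eq_of_not_indep_subset h2 Set.inter_subset_left
  have h4 : C ⊆ (M i).E := Set.inter_eq_left.1 h3
  refine ⟨i, h4, ?_⟩
  rw [isCocircuit_def, isCircuit_iff_forall_ssubset]
  refine ⟨⟨by rwa [h3] at hi, h4⟩, fun I hI => ?_⟩
  have h5 := (sum_dual_indep.1 (hC.ssubset_indep hI)).1 i
  rwa [Set.inter_eq_left.2 (hI.subset.trans h4)] at h5

lemma Sep.sum (hM : ∀ i, Sep (M i)) : Sep (Matroid.disjointSigma M h) := by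
  intro C K hC hK hCi hKi
  obtain ⟨i, hi, hCi'⟩ := sum_circuit hC
  obtain ⟨j, hj, hKj⟩ := sum_cocircuit hK
  by_cases hij : i = j
  · subst hij
    exact hM i C K hCi' hKj hCi hKi
  · exact (h hij).mono hi hj

end sums

lemma sys_sums : ClosedUnderSums (sys (S := S)) := by
  intro ι P hP 𝓙 h𝓙
  choose M hE hM hsep using h𝓙
  have hd : Pairwise (Function.onFun Disjoint fun i => (M i).E) := by
    intro i j hij
    show Disjoint (M i).E (M j).E
    rw [hE, hE]
    exact hP hij
  refine ⟨Matroid.disjointSigma M hd, ?_, ?_, Sep.sum hsep⟩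
  · rw [disjointSigma_ground_eq]
    exact Set.iUnion_congr hE
  · ext X
    rw [mem_fam, disjointSigma_indep_iff, Set.iUnion_congr hE]
    constructor
    · rintro ⟨h1, h2⟩
      refine ⟨h2, fun i => ?_⟩
      rw [← hM i, ← hE i]
      exact h1 i
    · rintro ⟨h1, h2⟩
      refine ⟨fun i => ?_, h1⟩
      have := h2 i
      rw [← hM i, ← hE i] at this
      exact this

end Pool.Agent.TH427.BM
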