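import Mathlib
import Pool.Agent.TH427.BMain

/-!
A matroid with an infinite circuit and an infinite cocircuit that meet: an infinite circuit in which
one element is replaced by infinitely many parallel elements.
-/

set_option autoImplicit false

namespace Pool.Agent.TH427.BM

open Set Matroid

universe u

variable {S : Type u}

/-- at most one element outside `A`, and none if `A` is contained in the set -/
def ExIndep (A : Set S) (X : Set S) : Prop :=
  (∀ x ∈ X, ∀ y ∈ X, x ∉ A → y ∉ A → x = y) ∧ (A ⊆ X → X ⊆ A)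

lemma ex_sub {A X : Set S} (h : X ⊆ A) : ExIndep A X :=
  ⟨fun _ hx _ _ hxA => absurd (h hx) hxA, fun _ => h⟩

lemma ex_swap {A X : Set S} {a p : S} (ha : a ∈ A) (hp : p ∉ A) (hX : X ⊆ insert p (A \ {a})) :
    ExIndep A X := by
  refine ⟨fun x hx y hy hxA hyA => ?_, fun hA => ?_⟩
  · rcases hX hx with rfl | h
    · rcases hX hy with rfl | h
      · rfl
      · exact absurd h.1 hyA
    · exact absurd h.1 hxA
  · rcases hX (hA ha) with h | h
    · exact absurd (h ▸ ha) hp
    · exact absurd rfl h.2

/-- every independent set is contained in `A` or in a set `A - a + p` -/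
lemma ex_cases {A X : Set S} (h : ExIndep A X) :
    X ⊆ A ∨ ∃ a ∈ A, ∃ p ∈ X, p ∉ A ∧ a ∉ X ∧ X ⊆ insert p (A \ {a}) := by
  by_cases hX : X ⊆ A
  · exact Or.inl hX
  · right
    obtain ⟨p, hp, hpA⟩ := Set.not_subset.1 hX
    have hA : ¬ A ⊆ X := fun hA => hX (h.2 hA)
    obtain ⟨a, ha, haX⟩ := Set.not_subset.1 hA
    refine ⟨a, ha, p, hp, hpA, haX, fun x hx => ?_⟩
    by_cases hxA : x ∈ A
    · right
      exact ⟨hxA, fun hxa => haX (hxa ▸ hx)⟩
    · left
      exact h.1 x hx p hp hxA hpA

lemma ex_subset {A X Y : Set S} (h : ExIndep A Y) (hXY : X ⊆ Y) : ExIndep A X := by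
  refine ⟨fun x hx y hy => h.1 x (hXY hx) y (hXY hy), fun hA x hx => h.2 (hA.trans hXY) (hXY hx)⟩

lemma ex_maximal_A {A : Set S} : Maximal (ExIndep A) A :=
  ⟨ex_sub subset_rfl, fun _ hY hAY => hY.2 hAY⟩

/-- the matroid -/
def exMatroid (A : Set S) : IndepMatroid S where
  E := univ
  Indep := ExIndep A
  indep_empty := ex_sub (empty_subset _)
  indep_subset := fun _ _ hJ hIJ => ex_subset hJ hIJ
  indep_aug := by
    intro I B hI hnI hB
    -- a maximal set meets the following: it contains all but at most one element of `A`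
    rcases ex_cases hI with hIA | ⟨a, ha, p, hp, hpA, haI, hIs⟩
    · have hne : I ≠ A := by
        rintro rfl
        exact hnI ex_maximal_A
      by_cases hBA : B ⊆ A
      · have hBA' : B = A := hBA.antisymm (hB.2 (ex_sub subset_rfl) hBA)
        obtain ⟨x, hx, hxI⟩ := Set.not_subset.1 (fun h => hne (hIA.antisymm h))
        exact ⟨x, ⟨hBA' ▸ hx, hxI⟩, ex_sub (Set.insert_subset hx hIA)⟩
      · obtain ⟨q, hq, hqA⟩ := Set.not_subset.1 hBA
        obtain ⟨b, hb, hbI⟩ := Set.not_subset.1 (fun h => hne (hIA.antisymm h))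
        refine ⟨q, ⟨hq, fun h => hqA (hIA h)⟩, ex_swap hb hqA ?_⟩
        refine Set.insert_subset (Set.mem_insert _ _) fun x hx => Or.inr ⟨hIA hx, ?_⟩
        intro hxb
        exact hbI (hxb ▸ hx)
    · -- `I` contains `p` outside `A` and misses at least two elements of `A`
      have h2 : ∀ b ∈ A, ∃ x ∈ A, x ≠ b ∧ x ∉ I := by
        intro b hb
        by_contra hcon
        push Not at hcon
        apply hnI
        refine ⟨hI, fun Y hY hIY y hy => ?_⟩
        have hab : a = b := by
          by_contra hab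
          exact haI (hcon a ha hab)
        by_cases hyA : y ∈ A
        · by_cases hyb : y = b
          · -- then `A ⊆ Y`, contradiction
            exfalso
            have hAY : A ⊆ Y := by
              intro z hz
              by_cases hzb : z = b
              · rw [hzb, ← hyb]; exact hy
              · exact hIY (hcon z hz hzb)
            exact hpA (hY.2 hAY (hIY hp))
          · exact hcon y hyA hyb
        · rw [hY.1 y hy p (hIY hp) hyA hpA]
          exact hp
      have hins : ∀ x ∈ A, x ∉ I → ExIndep A (insert x I) := by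
        intro x hx hxI
        obtain ⟨y, hy, hyx, hyI⟩ := h2 x hx
        refine ⟨fun u hu v hv huA hvA => ?_, fun hA => ?_⟩
        · rcases hu with rfl | hu
          · exact absurd hx huA
          · rcases hv with rfl | hv
            · exact absurd hx hvA
            · exact hI.1 u hu v hv huA hvA
        · rcases hA hy with h | h
          · exact absurd h hyx
          · exact absurd h hyI
      by_cases hBA : B ⊆ A
      · have hBA' : B = A := hBA.antisymm (hB.2 (ex_sub subset_rfl) hBA)
        exact ⟨a, ⟨hBA' ▸ ha, haI⟩, hins a ha haI⟩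
      · rcases ex_cases hB.1 with h | ⟨b, hb, q, hq, hqA, hbB, hBs⟩
        · exact absurd h hBA
        · obtain ⟨x, hx, hxb, hxI⟩ := h2 b hb
          have hBeq : insert q (A \ {b}) ⊆ B := hB.2 (ex_swap hb hqA subset_rfl) hBs
          exact ⟨x, ⟨hBeq (Or.inr ⟨hx, hxb⟩), hxI⟩, hins x hx hxI⟩
  indep_maximal := by
    intro X _ I hI hIX
    rcases ex_cases hI with hIA | ⟨a, ha, p, hp, hpA, haI, hIs⟩
    · by_cases hAX : A ⊆ X
      · refine ⟨A, hIA, ⟨ex_sub subset_rfl, hAX⟩, fun Y hY hAY => hY.1.2 hAY⟩
      · obtain ⟨b, hb, hbX⟩ := Set.not_subset.1 hAX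
        by_cases hXA : X ⊆ A
        · exact ⟨X, hIX, ⟨ex_sub hXA, subset_rfl⟩, fun Y hY _ => hY.2⟩
        · obtain ⟨p, hp, hpA⟩ := Set.not_subset.1 hXA
          refine ⟨insert p (X ∩ A), ?_, ⟨ex_swap hb hpA ?_, ?_⟩, ?_⟩
          · exact fun x hx => Or.inr ⟨hIX hx, hIA hx⟩
          · refine Set.insert_subset (Set.mem_insert _ _) fun x hx => Or.inr ⟨hx.2, ?_⟩
            intro hxb
            exact hbX (hxb ▸ hx.1)
          · exact Set.insert_subset hp Set.inter_subset_left
          · rintro Y ⟨hY, hYX⟩ hJY y hy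
            by_cases hyA : y ∈ A
            · exact Or.inr ⟨hYX hy, hyA⟩
            · left
              exact hY.1 y hy p (hJY (Set.mem_insert _ _)) hyA hpA
    · by_cases hAX : A ⊆ X
      · refine ⟨insert p (A \ {a}), hIs, ⟨ex_swap ha hpA subset_rfl, ?_⟩, ?_⟩
        · exact Set.insert_subset (hIX hp) (sdiff_subset.trans hAX)
        · rintro Y ⟨hY, hYX⟩ hJY y hy
          by_cases hyA : y ∈ A
          · right
            refine ⟨hyA, ?_⟩
            intro hya
            have hAY : A ⊆ Y := by
              intro z hz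
              by_cases hza : z = a
              · rw [hza, ← hya]; exact hy
              · exact hJY (Or.inr ⟨hz, hza⟩)
            exact hpA (hY.2 hAY (hJY (Set.mem_insert _ _)))
          · left
            exact hY.1 y hy p (hJY (Set.mem_insert _ _)) hyA hpA
      · obtain ⟨b, hb, hbX⟩ := Set.not_subset.1 hAX
        refine ⟨insert p (X ∩ A), ?_, ⟨ex_swap hb hpA ?_, ?_⟩, ?_⟩
        · intro x hx
          rcases hIs hx with h | h
          · exact Or.inl h
          · exact Or.inr ⟨hIX hx, h.1⟩
        · refine Set.insert_subset (Set.mem_insert _ _) fun x hx => Or.inr ⟨hx.2, ?_⟩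
          intro hxb
          exact hbX (hxb ▸ hx.1)
        · exact Set.insert_subset (hIX hp) Set.inter_subset_left
        · rintro Y ⟨hY, hYX⟩ hJY y hy
          by_cases hyA : y ∈ A
          · exact Or.inr ⟨hYX hy, hyA⟩
          · left
            exact hY.1 y hy p (hJY (Set.mem_insert _ _)) hyA hpA
  subset_ground := fun _ _ => subset_univ _

lemma ex_not_sep {A : Set S} (hA : A.Infinite) (hAc : Aᶜ.Infinite) :
    ¬ Sep (exMatroid A).matroid := by
  obtain ⟨a, ha⟩ := hA.nonempty
  obtain ⟨p, hp⟩ := hAc.nonempty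
  have hind : ∀ X, (exMatroid A).matroid.Indep X ↔ ExIndep A X := fun X => Iff.rfl
  have hC : (exMatroid A).matroid.IsCircuit (insert p A) := by
    rw [isCircuit_iff_dep_forall_sdiff_singleton_indep]
    refine ⟨⟨?_, subset_univ _⟩, ?_⟩
    · rw [hind]
      intro h
      exact hp (h.2 (Set.subset_insert _ _) (Set.mem_insert _ _))
    · intro e he
      rw [hind]
      rcases he with rfl | he
      · refine ex_sub ?_
        rintro x ⟨rfl | hx, hx2⟩
        · exact absurd rfl hx2
        · exact hx
      · refine ex_swap he hp ?_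
        rintro x ⟨rfl | hx, hx2⟩
        · exact Or.inl rfl
        · exact Or.inr ⟨hx, hx2⟩
  have hbaseA : (exMatroid A).matroid.IsBase A := ex_maximal_A
  have hbase : ∀ q, q ∉ A → (exMatroid A).matroid.IsBase (insert q (A \ {a})) := by
    intro q hq
    show Maximal (ExIndep A) _
    refine ⟨ex_swap ha hq subset_rfl, fun Y hY hJY y hy => ?_⟩
    by_cases hyA : y ∈ A
    · right
      refine ⟨hyA, ?_⟩
      intro hya
      have hAY : A ⊆ Y := by
        intro z hz
        by_cases hza : z = a
        · rw [hza, ← hya]; exact hy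
        · exact hJY (Or.inr ⟨hz, hza⟩)
      exact hq (hY.2 hAY (hJY (Set.mem_insert _ _)))
    · left
      exact hY.1 y hy q (hJY (Set.mem_insert _ _)) hyA hq
  have hK : (exMatroid A).matroid.IsCocircuit (insert a Aᶜ) := by
    rw [isCocircuit_def, isCircuit_iff_dep_forall_sdiff_singleton_indep]
    refine ⟨⟨?_, subset_univ _⟩, ?_⟩
    · rw [dual_indep_iff_exists']
      rintro ⟨-, B, hB, hd⟩
      rcases ex_cases hB.indep with h | ⟨b, hb, q, hq, hqA, hbB, hBs⟩
      · have : B = A := h.antisymm (hB.2 (ex_sub subset_rfl) h)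
        subst this
        exact Set.disjoint_left.1 hd (Set.mem_insert _ _) ha
      · exact Set.disjoint_left.1 hd (Set.mem_insert_of_mem _ hqA) hq
    · intro e he
      rw [dual_indep_iff_exists']
      rcases he with rfl | he
      · refine ⟨subset_univ _, A, hbaseA, ?_⟩
        rw [Set.disjoint_left]
        rintro x ⟨rfl | hx, hx2⟩ hxA
        · exact hx2 rfl
        · exact hx hxA
      · refine ⟨subset_univ _, _, hbase e he, ?_⟩
        rw [Set.disjoint_left]
        rintro x ⟨rfl | hx, hx2⟩ hxB
        · rcases hxB with h | h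
          · exact hx2 h
          · exact h.2 rfl
        · rcases hxB with h | h
          · exact hx2 h
          · exact hx h.1
  intro hsep
  have := hsep _ _ hC hK (hA.mono (Set.subset_insert _ _)) (hAc.mono (Set.subset_insert _ _))
  exact Set.disjoint_left.1 this (Set.mem_insert _ _) (Set.mem_insert_of_mem _ hp)

lemma exists_split [Infinite S] : ∃ A : Set S, A.Infinite ∧ Aᶜ.Infinite := by
  obtain ⟨e⟩ : Nonempty (S ≃ S ⊕ S) := by
    rw [← Cardinal.eq, Cardinal.mk_sum]
    simp [Cardinal.add_eq_self (Cardinal.aleph0_le_mk S)]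
  refine ⟨{x | (e x).isLeft = true}, ?_, ?_⟩
  · refine Set.infinite_of_injective_forall_mem (f := fun x : S => e.symm (Sum.inl x)) ?_ ?_
    · intro x y hxy
      simpa using hxy
    · intro x
      simp
  · refine Set.infinite_of_injective_forall_mem (f := fun x : S => e.symm (Sum.inr x)) ?_ ?_
    · intro x y hxy
      simpa using hxy
    · intro x
      simp

theorem main (S : Type u) [Infinite S] :
    ∃ 𝓓 : Set S → Set (Set (Set S)), Admissible 𝓓 ∧
      (∀ W 𝓘, IndependenceSpace W 𝓘 → 𝓘 ∈ 𝓓 W) ∧ ClosedUnderSums 𝓓 ∧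
      ∃ 𝓘, BMatroid univ 𝓘 ∧ 𝓘 ∉ 𝓓 univ := by
  obtain ⟨A, hA, hAc⟩ := exists_split (S := S)
  refine ⟨sys, sys_admissible, fun W 𝓘 h => sys_indep h, sys_sums, fam (exMatroid A).matroid,
    bmat_fam (exMatroid A).matroid, ?_⟩
  rintro ⟨M, hE, hM, hsep⟩
  have : M = (exMatroid A).matroid := fam_inj hE hM
  rw [this] at hsep
  exact ex_not_sep hA hAc hsep

end Pool.Agent.TH427.BM
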