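import Mathlib

/-!
A local transfer lemma for regular subdivisions of the hypersimplex `Δ(3,n)`, and the rigidity of an
explicit tropical Plücker vector of `Dr(3,9)`.
-/

set_option autoImplicit false

namespace Pool.Agent.TH427.Dr

open Finset

/-- the face of `Δ(d,n)` on which `w - c` is minimal -/
def cell {n : ℕ} (d : ℕ) (w : Finset (Fin n) → ℝ) (c : Fin n → ℝ) : Set (Finset (Fin n)) :=
  {B : Finset (Fin n) | B.card = d ∧ ∀ B' : Finset (Fin n), B'.card = d →
    w B - ∑ i ∈ B, c i ≤ w B' - ∑ i ∈ B', c i}

/-- every cell of `w` is contained in a cell of `v` -/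
def Coarser {n : ℕ} (d : ℕ) (w v : Finset (Fin n) → ℝ) : Prop :=
  ∀ c : Fin n → ℝ, ∃ c' : Fin n → ℝ, cell d w c ⊆ cell d v c'

lemma sum3 {n : ℕ} (c : Fin n → ℝ) {s i j : Fin n} (h1 : i ≠ j) (h2 : i ≠ s) (h3 : j ≠ s) :
    ∑ x ∈ insert i (insert j ({s} : Finset (Fin n))), c x = c i + c j + c s := by
  rw [Finset.sum_insert (by simp [h1, h2]), Finset.sum_insert (by simp [h3]),
    Finset.sum_singleton]
  ring

lemma card3 {n : ℕ} {s i j : Fin n} (h1 : i ≠ j) (h2 : i ≠ s) (h3 : j ≠ s) :
    (insert i (insert j ({s} : Finset (Fin n)))).card = 3 := by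
  rw [Finset.card_insert_of_notMem (by simp [h1, h2]), Finset.card_insert_of_notMem (by simp [h3]),
    Finset.card_singleton]

/-- Local transfer: an equality `w(ij)+w(kl) = w(ik)+w(jl) ≤ w(il)+w(jk)` (with `s` added to all
sets) passes to every `v` whose subdivision is coarser than the one of `w`. -/
theorem transfer {n : ℕ} {w v : Finset (Fin n) → ℝ} (H : Coarser 3 w v) {s i j k l : Fin n}
    (his : i ≠ s) (hjs : j ≠ s) (hks : k ≠ s) (hls : l ≠ s)
    (hij : i ≠ j) (hik : i ≠ k) (hil : i ≠ l) (hjk : j ≠ k) (hjl : j ≠ l) (hkl : k ≠ l)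
    (h1 : w (insert i (insert j {s})) + w (insert k (insert l {s}))
      = w (insert i (insert k {s})) + w (insert j (insert l {s})))
    (h2 : w (insert i (insert j {s})) + w (insert k (insert l {s}))
      ≤ w (insert i (insert l {s})) + w (insert j (insert k {s}))) :
    v (insert i (insert j {s})) + v (insert k (insert l {s}))
      = v (insert i (insert k {s})) + v (insert j (insert l {s})) ∧
    v (insert i (insert j {s})) + v (insert k (insert l {s}))
      ≤ v (insert i (insert l {s})) + v (insert j (insert k {s})) := by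
  classical
  -- bound for `w`
  obtain ⟨W, hW⟩ : ∃ W : ℝ, ∀ B : Finset (Fin n), |w B| ≤ W := by
    refine ⟨∑ B : Finset (Fin n), |w B|, fun B => ?_⟩
    exact Finset.single_le_sum (f := fun B => |w B|) (fun _ _ => abs_nonneg _) (Finset.mem_univ B)
  have hW0 : 0 ≤ W := le_trans (abs_nonneg _) (hW ∅)
  set wij := w (insert i (insert j {s})) with hwij
  set wkl := w (insert k (insert l {s})) with hwkl
  set wik := w (insert i (insert k {s})) with hwik
  set wjl := w (insert j (insert l {s})) with hwjl
  set wil := w (insert i (insert l {s})) with hwil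
  set wjk := w (insert j (insert k {s})) with hwjk
  have bij := abs_le.1 (hW (insert i (insert j {s})))
  have bkl := abs_le.1 (hW (insert k (insert l {s})))
  have bik := abs_le.1 (hW (insert i (insert k {s})))
  have bjl := abs_le.1 (hW (insert j (insert l {s})))
  have bil := abs_le.1 (hW (insert i (insert l {s})))
  have bjk := abs_le.1 (hW (insert j (insert k {s})))
  rw [← hwij] at bij
  rw [← hwkl] at bkl
  rw [← hwik] at bik
  rw [← hwjl] at bjl
  rw [← hwil] at bil
  rw [← hwjk] at bjk
  -- the functional: w(ab) - ci - cj = 0 on ij, kl, ik, jl, il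
  -- ci + cj = wij, ci + ck = wik, ci + cl = wil, ck + cl = wkl
  set ci : ℝ := (wik + wil - wkl) / 2 with hci
  set cj : ℝ := wij - ci with hcj
  set ck : ℝ := wik - ci with hck
  set cl : ℝ := wil - ci with hcl
  set K : ℝ := 100 * (W + 1) with hK
  let c : Fin n → ℝ := fun x =>
    if x = s then K else if x = i then ci else if x = j then cj else if x = k then ck
      else if x = l then cl else -K
  have cs : c s = K := by simp [c]
  have cci : c i = ci := by simp [c, his]
  have ccj : c j = cj := by simp [c, hjs, hij.symm]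
  have cck : c k = ck := by simp [c, hks, hik.symm, hjk.symm]
  have ccl : c l = cl := by simp [c, hls, hil.symm, hjl.symm, hkl.symm]
  have bci : |ci| ≤ 2 * W := by
    rw [abs_le]
    constructor
    · linarith only [hci, bik.1, bik.2, bil.1, bil.2, bkl.1, bkl.2]
    · linarith only [hci, bik.1, bik.2, bil.1, bil.2, bkl.1, bkl.2]
  have bci' := abs_le.1 bci
  have cle : ∀ x, x ≠ s → c x ≤ 3 * W := by
    intro x hx
    by_cases e1 : x = i
    · rw [e1, cci]; linarith only [bci'.2, hW0]
    by_cases e2 : x = j
    · rw [e2, ccj]; linarith only [bci'.1, bij.2, hcj]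
    by_cases e3 : x = k
    · rw [e3, cck]; linarith only [bci'.1, bik.2, hck]
    by_cases e4 : x = l
    · rw [e4, ccl]; linarith only [bci'.1, bil.2, hcl]
    have : c x = -K := by simp [c, hx, e1, e2, e3, e4]
    rw [this]; linarith only [hK, hW0]
  have cout : ∀ x, x ≠ s → x ≠ i → x ≠ j → x ≠ k → x ≠ l → c x = -K := by
    intro x h0 e1 e2 e3 e4
    simp [c, h0, e1, e2, e3, e4]
  have ekl : ck + cl = wkl := by linarith only [hck, hcl, hci]
  have ejl : cj + cl = wjl := by linarith only [hck, hcl, hci, hcj, h1]
  have ejk : cj + ck ≤ wjk := by linarith only [hck, hcl, hci, hcj, h1, h2]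
  have key : ∀ B' : Finset (Fin n), B'.card = 3 → -K ≤ w B' - ∑ x ∈ B', c x := by
    intro B' hB'
    have bw := abs_le.1 (hW B')
    by_cases hs : s ∈ B'
    · have h2 : (B'.erase s).card = 2 := by rw [Finset.card_erase_of_mem hs, hB']
      obtain ⟨x, y, hxy, hxyB⟩ := Finset.card_eq_two.1 h2
      have hB : B' = insert x (insert y {s}) := by
        rw [← Finset.insert_erase hs, hxyB, Finset.insert_comm s x]
        rw [Finset.pair_comm s y]
      have hxs : x ≠ s := by
        have : x ∈ B'.erase s := by rw [hxyB]; simp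
        exact (Finset.mem_erase.1 this).1
      have hys : y ≠ s := by
        have : y ∈ B'.erase s := by rw [hxyB]; simp
        exact (Finset.mem_erase.1 this).1
      have hsum : ∑ z ∈ B', c z = c x + c y + K := by rw [hB, sum3 c hxy hxs hys, cs]
      rw [hsum]
      -- symmetric treatment
      have aux : ∀ x y : Fin n, x ≠ y → x ≠ s → y ≠ s → B' = insert x (insert y {s}) →
          -K ≤ w B' - (c x + c y + K) := by
        intro x y hxy hxs hys hB
        by_cases hx : x = i ∨ x = j ∨ x = k ∨ x = l
        swap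
        · simp only [not_or] at hx
          rw [cout x hxs hx.1 hx.2.1 hx.2.2.1 hx.2.2.2]
          have := cle y hys
          linarith only [this, bw.1, hK, hW0]
        by_cases hy : y = i ∨ y = j ∨ y = k ∨ y = l
        swap
        · simp only [not_or] at hy
          rw [cout y hys hy.1 hy.2.1 hy.2.2.1 hy.2.2.2]
          have := cle x hxs
          linarith only [this, bw.1, hK, hW0]
        have comm : ∀ a b : Fin n, (insert a (insert b ({s} : Finset (Fin n)))) =
            insert b (insert a {s}) := fun a b => Finset.insert_comm a b {s}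
        rcases hx with e1 | e1 | e1 | e1 <;> rcases hy with e2 | e2 | e2 | e2
        · exact absurd (e1.trans e2.symm) hxy
        · rw [hB, e1, e2, ← hwij, cci, ccj]; linarith only [hcj]
        · rw [hB, e1, e2, ← hwik, cci, cck]; linarith only [hck]
        · rw [hB, e1, e2, ← hwil, cci, ccl]; linarith only [hcl]
        · rw [hB, e1, e2, comm, ← hwij, cci, ccj]; linarith only [hcj]
        · exact absurd (e1.trans e2.symm) hxy
        · rw [hB, e1, e2, ← hwjk, ccj, cck]; linarith only [ejk]
        · rw [hB, e1, e2, ← hwjl, ccj, ccl]; linarith only [ejl]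
        · rw [hB, e1, e2, comm, ← hwik, cci, cck]; linarith only [hck]
        · rw [hB, e1, e2, comm, ← hwjk, ccj, cck]; linarith only [ejk]
        · exact absurd (e1.trans e2.symm) hxy
        · rw [hB, e1, e2, ← hwkl, cck, ccl]; linarith only [ekl]
        · rw [hB, e1, e2, comm, ← hwil, cci, ccl]; linarith only [hcl]
        · rw [hB, e1, e2, comm, ← hwjl, ccj, ccl]; linarith only [ejl]
        · rw [hB, e1, e2, comm, ← hwkl, cck, ccl]; linarith only [ekl]
        · exact absurd (e1.trans e2.symm) hxy
      exact aux x y hxy hxs hys hB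
    · have : ∑ x ∈ B', c x ≤ B'.card • (3 * W) := by
        apply Finset.sum_le_card_nsmul
        intro x hx
        exact cle x (fun h => hs (h ▸ hx))
      rw [hB', nsmul_eq_mul] at this
      push_cast at this
      linarith only [this, bw.1, hK, hW0]
  obtain ⟨c', hc'⟩ := H c
  have mij : insert i (insert j {s}) ∈ cell 3 w c := by
    refine ⟨card3 hij his hjs, fun B' hB' => ?_⟩
    rw [sum3 c hij his hjs, cci, ccj, cs, ← hwij]
    have := key B' hB'
    linarith only [this, hcj]
  have mkl : insert k (insert l {s}) ∈ cell 3 w c := by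
    refine ⟨card3 hkl hks hls, fun B' hB' => ?_⟩
    rw [sum3 c hkl hks hls, cck, ccl, cs, ← hwkl]
    have := key B' hB'
    linarith only [this, ekl]
  have mik : insert i (insert k {s}) ∈ cell 3 w c := by
    refine ⟨card3 hik his hks, fun B' hB' => ?_⟩
    rw [sum3 c hik his hks, cci, cck, cs, ← hwik]
    have := key B' hB'
    linarith only [this, hck]
  have mjl : insert j (insert l {s}) ∈ cell 3 w c := by
    refine ⟨card3 hjl hjs hls, fun B' hB' => ?_⟩
    rw [sum3 c hjl hjs hls, ccj, ccl, cs, ← hwjl]
    have := key B' hB'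
    linarith only [this, ejl]
  have mil : insert i (insert l {s}) ∈ cell 3 w c := by
    refine ⟨card3 hil his hls, fun B' hB' => ?_⟩
    rw [sum3 c hil his hls, cci, ccl, cs, ← hwil]
    have := key B' hB'
    linarith only [this, hcl]
  have vij := (hc' mij).2
  have vkl := (hc' mkl).2
  have vik := (hc' mik).2
  have vjl := (hc' mjl).2
  have vil := (hc' mil).2
  have a1 := vij _ (card3 hik his hks)
  have a2 := vik _ (card3 hij his hjs)
  have a3 := vkl _ (card3 hjl hjs hls)
  have a4 := vjl _ (card3 hkl hks hls)
  have a5 := vil _ (card3 hij his hjs)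
  have a6 := vij _ (card3 hil his hls)
  have a7 := vkl _ (card3 hjk hjs hks)
  rw [sum3 c' hij his hjs] at a1 a2 a5 a6
  rw [sum3 c' hik his hks] at a1 a2
  rw [sum3 c' hkl hks hls] at a3 a4 a7
  rw [sum3 c' hjl hjs hls] at a3 a4
  rw [sum3 c' hil his hls] at a5 a6
  rw [sum3 c' hjk hjs hks] at a7
  constructor
  · linarith only [a1, a2, a3, a4]
  · linarith only [a1, a2, a3, a4, a5, a6, a7]

end Pool.Agent.TH427.Dr
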