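import Mathlib
import Pool.Agent.TH427.DrLocal

/-!
An explicit tropical Plücker vector `w` in `Dr(3,9)` with values in `{0,1,2}` and its rigidity.
-/

set_option autoImplicit false
set_option maxRecDepth 100000

namespace Pool.Agent.TH427.Dr

open Finset

/-- bitmask of a subset -/
def code (B : Finset (Fin 9)) : ℕ := ∑ i ∈ B, 2 ^ (i : ℕ)

/-- subset with given bitmask -/
def dec (c : ℕ) : Finset (Fin 9) := Finset.univ.filter fun i : Fin 9 => c.testBit i

/-- low bits of the table -/
def N1 : ℕ := 169232921213939450847119190834083296872758609663329338206092747126097058763216160534850240451681237349881587195274375411007488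

/-- high bits of the table -/
def N2 : ℕ := 726838724295606890549323807888004674350503669015606680616929201659349472914013879773557255752899177583457873040405094044124126501666816

/-- the table: values in `{0,1,2}` -/
def g (c : ℕ) : ℕ := (N1.testBit c).toNat + 2 * (N2.testBit c).toNat

/-- the tropical Plücker vector -/
noncomputable def w (B : Finset (Fin 9)) : ℝ := (g (code B) : ℝ)

/-- code of `{i,j,s}` -/
def cd (i j s : Fin 9) : ℕ := 2 ^ (i : ℕ) + 2 ^ (j : ℕ) + 2 ^ (s : ℕ)

lemma code3 {i j s : Fin 9} (h1 : i ≠ j) (h2 : i ≠ s) (h3 : j ≠ s) :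
    code (insert i (insert j {s})) = cd i j s := by
  unfold code cd
  rw [Finset.sum_insert (by simp [h1, h2]), Finset.sum_insert (by simp [h3]),
    Finset.sum_singleton]
  ring

lemma w3 {i j s : Fin 9} (h1 : i ≠ j) (h2 : i ≠ s) (h3 : j ≠ s) :
    w (insert i (insert j {s})) = (g (cd i j s) : ℝ) := by
  rw [w, code3 h1 h2 h3]

lemma dec_code : ∀ B : Finset (Fin 9), dec (code B) = B := by
  decide +kernel

/-- distinctness of five elements -/
def dist5 (s i j k l : Fin 9) : Bool :=
  i != s && j != s && k != s && l != s && i != j && i != k && i != l && j != k && j != l && k != l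

/-- the tropical Plücker relations for the table -/
theorem table_tp : ∀ s i j k l : Fin 9, dist5 s i j k l = true →
    ((g (cd i j s) + g (cd k l s) = g (cd i k s) + g (cd j l s) ∧
      g (cd i j s) + g (cd k l s) ≤ g (cd i l s) + g (cd j k s)) ∨
     (g (cd i j s) + g (cd k l s) = g (cd i l s) + g (cd j k s) ∧
      g (cd i j s) + g (cd k l s) ≤ g (cd i k s) + g (cd j l s)) ∨
     (g (cd i k s) + g (cd j l s) = g (cd i l s) + g (cd j k s) ∧
      g (cd i k s) + g (cd j l s) ≤ g (cd i j s) + g (cd k l s))) := by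
  decide +kernel

/-- a step uses the equality `w(ijs)+w(kls) = w(iks)+w(jls) ≤ w(ils)+w(jks)` -/
def okStep (s i j k l : Fin 9) : Bool :=
  dist5 s i j k l && (g (cd i j s) + g (cd k l s) == g (cd i k s) + g (cd j l s)) &&
    decide (g (cd i j s) + g (cd k l s) ≤ g (cd i l s) + g (cd j k s))

/-- at least three of the four codes are known -/
def three (a b c d : Bool) : Bool :=
  (a && b && c) || (a && b && d) || (a && c && d) || (b && c && d)

/-- run the propagation; `K` is the list of known codes -/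
def run : List (Fin 9 × Fin 9 × Fin 9 × Fin 9 × Fin 9) → List ℕ → Option (List ℕ)
  | [], K => some K
  | (s, i, j, k, l) :: L, K =>
    if okStep s i j k l &&
      three (K.contains (cd i j s)) (K.contains (cd k l s)) (K.contains (cd i k s))
        (K.contains (cd j l s)) then
      run L (cd i j s :: cd k l s :: cd i k s :: cd j l s :: K)
    else none

lemma okStep_dist {s i j k l : Fin 9} (h : okStep s i j k l = true) :
    dist5 s i j k l = true := by
  simp only [okStep, Bool.and_eq_true] at h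
  exact h.1.1

lemma dec_cd : ∀ i j s : Fin 9, i ≠ j → i ≠ s → j ≠ s →
    dec (cd i j s) = insert i (insert j {s}) := by
  intro i j s h1 h2 h3
  rw [← code3 h1 h2 h3, dec_code]

lemma dist5_iff {s i j k l : Fin 9} : dist5 s i j k l = true ↔
    i ≠ s ∧ j ≠ s ∧ k ≠ s ∧ l ≠ s ∧ i ≠ j ∧ i ≠ k ∧ i ≠ l ∧ j ≠ k ∧ j ≠ l ∧ k ≠ l := by
  simp only [dist5, Bool.and_eq_true, bne_iff_ne, and_assoc]

/-- soundness of the propagation -/
lemma run_sound (u : Finset (Fin 9) → ℝ)
    (hu : ∀ s i j k l : Fin 9, okStep s i j k l = true →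
      u (insert i (insert j {s})) + u (insert k (insert l {s}))
        = u (insert i (insert k {s})) + u (insert j (insert l {s}))) :
    ∀ (L : List (Fin 9 × Fin 9 × Fin 9 × Fin 9 × Fin 9)) (K K' : List ℕ),
      run L K = some K' → (∀ x ∈ K, u (dec x) = 0) → ∀ x ∈ K', u (dec x) = 0 := by
  intro L
  induction L with
  | nil =>
    intro K K' h hK
    simp only [run, Option.some.injEq] at h
    rw [← h]; exact hK
  | cons p L ih =>
    obtain ⟨s, i, j, k, l⟩ := p
    intro K K' h hK
    rw [run] at h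
    split_ifs at h with hc
    rw [Bool.and_eq_true] at hc
    obtain ⟨hok, h3⟩ := hc
    have hd := dist5_iff.1 (okStep_dist hok)
    obtain ⟨e1, e2, e3, e4, e5, e6, e7, e8, e9, e10⟩ := hd
    have heq := hu s i j k l hok
    rw [← dec_cd i j s e5 e1 e2, ← dec_cd k l s e10 e3 e4, ← dec_cd i k s e6 e1 e3,
      ← dec_cd j l s e9 e2 e4] at heq
    have hk : ∀ x, K.contains x = true → u (dec x) = 0 := by
      intro x hx
      exact hK x (by simpa using hx)
    refine ih _ K' h ?_
    simp only [three, Bool.or_eq_true, Bool.and_eq_true] at h3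
    have hall : u (dec (cd i j s)) = 0 ∧ u (dec (cd k l s)) = 0 ∧ u (dec (cd i k s)) = 0 ∧
        u (dec (cd j l s)) = 0 := by
      rcases h3 with ((⟨⟨a, b⟩, c⟩ | ⟨⟨a, b⟩, c⟩) | ⟨⟨a, b⟩, c⟩) | ⟨⟨a, b⟩, c⟩
      · have A := hk _ a
        have B := hk _ b
        have C := hk _ c
        exact ⟨A, B, C, by linarith⟩
      · have A := hk _ a
        have B := hk _ b
        have C := hk _ c
        exact ⟨A, B, by linarith, C⟩
      · have A := hk _ a
        have B := hk _ b
        have C := hk _ c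
        exact ⟨A, by linarith, B, C⟩
      · have A := hk _ a
        have B := hk _ b
        have C := hk _ c
        exact ⟨by linarith, A, B, C⟩
    intro x hx
    simp only [List.mem_cons] at hx
    rcases hx with rfl | rfl | rfl | rfl | hx
    · exact hall.1
    · exact hall.2.1
    · exact hall.2.2.1
    · exact hall.2.2.2
    · exact hK x hx

/-- the ten start codes -/
def start : List ℕ := [7, 14, 22, 38, 70, 134, 262, 13, 11, 19]

/-- the steps -/
def steps : List (Fin 9 × Fin 9 × Fin 9 × Fin 9 × Fin 9) := [(1, 0, 2, 3, 4), (1, 0, 2, 3, 5), (1, 0, 2, 5, 3), (1, 0, 2, 3, 6), (1, 0, 2, 3, 7), (1, 0, 2, 3, 8), (1, 0, 2, 5, 4), (1, 0, 2, 4, 6), (1, 0, 2, 4, 7), (1, 0, 2, 7, 4), (1, 0, 2, 4, 8), (1, 0, 2, 5, 6), (1, 0, 2, 5, 7), (1, 0, 2, 5, 8), (1, 0, 2, 7, 6), (1, 0, 2, 7, 8), (2, 0, 1, 3, 4), (2, 0, 1, 4, 3), (2, 0, 1, 3, 5), (2, 0, 1, 5, 3), (2, 0, 1, 3, 6), (2, 0, 1, 6, 3), (2, 0, 1, 3, 7), (2, 0, 1, 7, 3), (2, 0, 1, 3, 8), (2, 0, 1, 8, 3), (2, 0, 1, 4, 5), (2, 0, 1, 4, 6), (2,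 0, 1, 4, 7), (2, 0, 1, 4, 8), (3, 0, 1, 4, 2), (3, 0, 1, 5, 2), (3, 0, 1, 6, 2), (3, 0, 1, 7, 2), (3, 0, 1, 8, 2), (3, 0, 1, 4, 5), (3, 0, 1, 4, 6), (3, 0, 1, 4, 7), (3, 0, 1, 4, 8), (3, 0, 1, 5, 6), (3, 0, 1, 5, 7), (3, 0, 1, 5, 8), (4, 0, 2, 5, 1), (4, 0, 1, 6, 2), (4, 0, 1, 7, 2), (4, 0, 1, 8, 2), (4, 0, 1, 5, 6), (4, 0, 1, 5, 7), (4, 0, 1, 5, 8), (4, 0, 1, 6, 7), (4, 0, 1, 7, 8), (5, 0, 2, 6, 1), (5, 0, 2, 7, 1), (5, 0, 2, 8, 1), (6, 0, 2, 7, 1), (6, 0, 2, 7, 3), (7, 0, 2, 8, 1), (7, 0, 2, 8, 3), (7, 0, 3, 8, 2), (7, 0, 2, 5, 8), (7, 0, 2, 6, 8), (8, 0, 2, 7, 6), (8, 0, 3, 7, 6), (8, 0, 4, 6, 7), (8, 0, 4, 7, 6), (8, 0, 5, 7, 6), (8, 1, 2, 6, 4), (0, 1, 2, 6, 8), (0, 1, 2, 8, 6), (2, 0, 5, 6, 8), (2, 0, 5, 8, 6), (2, 0, 5, 8, 7), (6, 0, 2, 7, 5), (6, 0, 5, 7, 2)]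

lemma run_ok : ∃ K', run steps start = some K' ∧ ∀ B : Finset (Fin 9), B.card = 3 →
    code B ∈ K' := by
  have h : ∀ K', run steps start = some K' → ∀ B : Finset (Fin 9), B.card = 3 →
      code B ∈ K' := by
    intro K' hK'
    have h2 : ∀ B : Finset (Fin 9), B.card = 3 →
        ((run steps start).getD []).contains (code B) = true := by decide +kernel
    rw [hK'] at h2
    intro B hB
    simpa using h2 B hB
  have hs : (run steps start).isSome = true := by decide +kernel
  obtain ⟨K', hK'⟩ := Option.isSome_iff_exists.1 hs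
  exact ⟨K', hK', h K' hK'⟩

/-- Rigidity: every `v` whose subdivision is coarser than that of `w` is, on triples, a nonnegative
multiple of `w` plus a linear functional. -/
theorem rigid (v : Finset (Fin 9) → ℝ) (H : Coarser 3 w v) :
    ∃ (t : ℝ) (a : Fin 9 → ℝ), 0 ≤ t ∧ ∀ B : Finset (Fin 9), B.card = 3 →
      v B = t * w B + ∑ i ∈ B, a i := by
  have hv : ∀ s i j k l : Fin 9, okStep s i j k l = true →
      v (insert i (insert j {s})) + v (insert k (insert l {s}))
        = v (insert i (insert k {s})) + v (insert j (insert l {s})) ∧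
      v (insert i (insert j {s})) + v (insert k (insert l {s}))
        ≤ v (insert i (insert l {s})) + v (insert j (insert k {s})) := by
    intro s i j k l h
    obtain ⟨e1, e2, e3, e4, e5, e6, e7, e8, e9, e10⟩ := dist5_iff.1 (okStep_dist h)
    simp only [okStep, Bool.and_eq_true, beq_iff_eq, decide_eq_true_eq] at h
    obtain ⟨⟨-, h1⟩, h2⟩ := h
    refine transfer H e1 e2 e3 e4 e5 e6 e7 e8 e9 e10 ?_ ?_
    · rw [w3 e5 e1 e2, w3 e10 e3 e4, w3 e6 e1 e3, w3 e9 e2 e4]
      exact_mod_cast h1
    · rw [w3 e5 e1 e2, w3 e10 e3 e4, w3 e7 e1 e4, w3 e8 e2 e3]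
      exact_mod_cast h2
  -- gauge
  set v0 := v (dec 7) with hv0
  set y1 := v (dec 13) with hy1
  set y2 := v (dec 11) with hy2
  set v3 := v (dec 14) with hv3
  set a0 : ℝ := (y1 + y2 - 2 * v3 + v0) / 3 with ha0
  let a : Fin 9 → ℝ := ![a0, y2 - 2 * a0 - v3 + v0, y1 - 2 * a0 - v3 + v0, a0 + v3 - v0,
    a0 + v (dec 22) - v0, a0 + v (dec 38) - v0, a0 + v (dec 70) - v0, a0 + v (dec 134) - v0,
    a0 + v (dec 262) - v0]
  set t : ℝ := v (dec 19) - ∑ i ∈ dec 19, a i with ht
  have d7 : dec 7 = insert 0 (insert 1 {2}) := by decide +kernel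
  have d14 : dec 14 = insert 1 (insert 2 {3}) := by decide +kernel
  have d22 : dec 22 = insert 1 (insert 2 {4}) := by decide +kernel
  have d38 : dec 38 = insert 1 (insert 2 {5}) := by decide +kernel
  have d70 : dec 70 = insert 1 (insert 2 {6}) := by decide +kernel
  have d134 : dec 134 = insert 1 (insert 2 {7}) := by decide +kernel
  have d262 : dec 262 = insert 1 (insert 2 {8}) := by decide +kernel
  have d13 : dec 13 = insert 0 (insert 2 {3}) := by decide +kernel
  have d11 : dec 11 = insert 0 (insert 1 {3}) := by decide +kernel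
  have wd : ∀ c : ℕ, w (dec c) = (g (code (dec c)) : ℝ) := fun c => rfl
  have g7 : g (code (dec 7)) = 0 := by decide +kernel
  have g14 : g (code (dec 14)) = 0 := by decide +kernel
  have g22 : g (code (dec 22)) = 0 := by decide +kernel
  have g38 : g (code (dec 38)) = 0 := by decide +kernel
  have g70 : g (code (dec 70)) = 0 := by decide +kernel
  have g134 : g (code (dec 134)) = 0 := by decide +kernel
  have g262 : g (code (dec 262)) = 0 := by decide +kernel
  have g13 : g (code (dec 13)) = 0 := by decide +kernel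
  have g11 : g (code (dec 11)) = 0 := by decide +kernel
  have g19 : g (code (dec 19)) = 1 := by decide +kernel
  have A0 : a 0 = a0 := rfl
  have A1 : a 1 = y2 - 2 * a0 - v3 + v0 := rfl
  have A2 : a 2 = y1 - 2 * a0 - v3 + v0 := rfl
  have A3 : a 3 = a0 + v3 - v0 := rfl
  have A4 : a 4 = a0 + v (dec 22) - v0 := rfl
  have A5 : a 5 = a0 + v (dec 38) - v0 := rfl
  have A6 : a 6 = a0 + v (dec 70) - v0 := rfl
  have A7 : a 7 = a0 + v (dec 134) - v0 := rfl
  have A8 : a 8 = a0 + v (dec 262) - v0 := rfl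
  let u : Finset (Fin 9) → ℝ := fun B => v B - t * w B - ∑ i ∈ B, a i
  have hu : ∀ s i j k l : Fin 9, okStep s i j k l = true →
      u (insert i (insert j {s})) + u (insert k (insert l {s}))
        = u (insert i (insert k {s})) + u (insert j (insert l {s})) := by
    intro s i j k l h
    have h1 := (hv s i j k l h).1
    obtain ⟨e1, e2, e3, e4, e5, e6, e7, e8, e9, e10⟩ := dist5_iff.1 (okStep_dist h)
    simp only [okStep, Bool.and_eq_true, beq_iff_eq, decide_eq_true_eq] at h
    obtain ⟨⟨-, h2⟩, -⟩ := h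
    have h3 : w (insert i (insert j {s})) + w (insert k (insert l {s}))
        = w (insert i (insert k {s})) + w (insert j (insert l {s})) := by
      rw [w3 e5 e1 e2, w3 e10 e3 e4, w3 e6 e1 e3, w3 e9 e2 e4]
      exact_mod_cast h2
    show (v _ - t * w _ - _) + (v _ - t * w _ - _) = (v _ - t * w _ - _) + (v _ - t * w _ - _)
    rw [sum3 a e5 e1 e2, sum3 a e10 e3 e4, sum3 a e6 e1 e3, sum3 a e9 e2 e4]
    linear_combination h1 - t * h3
  have hstart : ∀ x ∈ start, u (dec x) = 0 := by
    intro x hx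
    simp only [start, List.mem_cons, List.not_mem_nil, or_false] at hx
    rcases hx with rfl | rfl | rfl | rfl | rfl | rfl | rfl | rfl | rfl | rfl
    · show v (dec 7) - t * w (dec 7) - _ = 0
      rw [wd, g7, ← hv0, d7, sum3 a (by decide) (by decide) (by decide), A0, A1, A2, ha0]
      push_cast; ring
    · show v (dec 14) - t * w (dec 14) - _ = 0
      rw [wd, g14, ← hv3, d14, sum3 a (by decide) (by decide) (by decide), A1, A2, A3, ha0]
      push_cast; ring
    · show v (dec 22) - t * w (dec 22) - ∑ i ∈ dec 22, a i = 0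
      have : ∑ i ∈ dec 22, a i = a 1 + a 2 + a 4 := by
        rw [d22]; exact sum3 a (by decide) (by decide) (by decide)
      rw [this, wd, g22, A1, A2, A4, ha0]
      push_cast; ring
    · show v (dec 38) - t * w (dec 38) - ∑ i ∈ dec 38, a i = 0
      have : ∑ i ∈ dec 38, a i = a 1 + a 2 + a 5 := by
        rw [d38]; exact sum3 a (by decide) (by decide) (by decide)
      rw [this, wd, g38, A1, A2, A5, ha0]
      push_cast; ring
    · show v (dec 70) - t * w (dec 70) - ∑ i ∈ dec 70, a i = 0
      have : ∑ i ∈ dec 70, a i = a 1 + a 2 + a 6 := by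
        rw [d70]; exact sum3 a (by decide) (by decide) (by decide)
      rw [this, wd, g70, A1, A2, A6, ha0]
      push_cast; ring
    · show v (dec 134) - t * w (dec 134) - ∑ i ∈ dec 134, a i = 0
      have : ∑ i ∈ dec 134, a i = a 1 + a 2 + a 7 := by
        rw [d134]; exact sum3 a (by decide) (by decide) (by decide)
      rw [this, wd, g134, A1, A2, A7, ha0]
      push_cast; ring
    · show v (dec 262) - t * w (dec 262) - ∑ i ∈ dec 262, a i = 0
      have : ∑ i ∈ dec 262, a i = a 1 + a 2 + a 8 := by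
        rw [d262]; exact sum3 a (by decide) (by decide) (by decide)
      rw [this, wd, g262, A1, A2, A8, ha0]
      push_cast; ring
    · show v (dec 13) - t * w (dec 13) - _ = 0
      rw [wd, g13, ← hy1, d13, sum3 a (by decide) (by decide) (by decide), A0, A2, A3, ha0]
      push_cast; ring
    · show v (dec 11) - t * w (dec 11) - _ = 0
      rw [wd, g11, ← hy2, d11, sum3 a (by decide) (by decide) (by decide), A0, A1, A3, ha0]
      push_cast; ring
    · show v (dec 19) - t * w (dec 19) - ∑ i ∈ dec 19, a i = 0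
      rw [wd, g19, ht]
      push_cast; ring
  obtain ⟨K', hrun, hK'⟩ := run_ok
  have hz := run_sound u hu steps start K' hrun hstart
  have hfin : ∀ B : Finset (Fin 9), B.card = 3 → v B = t * w B + ∑ i ∈ B, a i := by
    intro B hB
    have h1 := hz _ (hK' B hB)
    rw [dec_code] at h1
    have h2 : v B - t * w B - ∑ i ∈ B, a i = 0 := h1
    linarith
  refine ⟨t, a, ?_, hfin⟩
  -- `t ≥ 0` from the octahedron `s = 0`, `i j k l = 1 2 3 4`
  have h1 := (hv 0 1 2 3 4 (by decide +kernel)).2
  rw [hfin _ (card3 (by decide) (by decide) (by decide)),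
    hfin _ (card3 (by decide) (by decide) (by decide)),
    hfin _ (card3 (by decide) (by decide) (by decide)),
    hfin _ (card3 (by decide) (by decide) (by decide)),
    sum3 a (by decide) (by decide) (by decide), sum3 a (by decide) (by decide) (by decide),
    sum3 a (by decide) (by decide) (by decide), sum3 a (by decide) (by decide) (by decide),
    w3 (by decide) (by decide) (by decide), w3 (by decide) (by decide) (by decide),
    w3 (by decide) (by decide) (by decide), w3 (by decide) (by decide) (by decide)] at h1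
  have b1 : g (cd 1 2 0) = 0 := by decide +kernel
  have b2 : g (cd 3 4 0) = 0 := by decide +kernel
  have b3 : g (cd 1 4 0) = 1 := by decide +kernel
  have b4 : g (cd 2 3 0) = 0 := by decide +kernel
  rw [b1, b2, b3, b4] at h1
  push_cast at h1
  linarith

end Pool.Agent.TH427.Dr
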