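import Mathlib
import Pool.Agent.TH427.DrRigid

/-!
The vector `w` spans a ray of `Dr(3,9)` and is not induced by a corank function.
-/

set_option autoImplicit false

namespace Pool.Agent.TH427.Dr

open Finset

lemma w_tp (S : Finset (Fin 9)) (i j k l : Fin 9) (hS : S.card + 2 = 3)
    (hi : i ∉ S) (hj : j ∉ S) (hk : k ∉ S) (hl : l ∉ S)
    (hij : i ≠ j) (hik : i ≠ k) (hil : i ≠ l) (hjk : j ≠ k) (hjl : j ≠ l) (hkl : k ≠ l) :
    ((w (insert i (insert j S)) + w (insert k (insert l S))
        = w (insert i (insert k S)) + w (insert j (insert l S)) ∧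
      w (insert i (insert j S)) + w (insert k (insert l S))
        ≤ w (insert i (insert l S)) + w (insert j (insert k S))) ∨
     (w (insert i (insert j S)) + w (insert k (insert l S))
        = w (insert i (insert l S)) + w (insert j (insert k S)) ∧
      w (insert i (insert j S)) + w (insert k (insert l S))
        ≤ w (insert i (insert k S)) + w (insert j (insert l S))) ∨
     (w (insert i (insert k S)) + w (insert j (insert l S))
        = w (insert i (insert l S)) + w (insert j (insert k S)) ∧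
      w (insert i (insert k S)) + w (insert j (insert l S))
        ≤ w (insert i (insert j S)) + w (insert k (insert l S)))) := by
  obtain ⟨s, rfl⟩ := Finset.card_eq_one.1 (show S.card = 1 by omega)
  rw [Finset.mem_singleton] at hi hj hk hl
  have h := table_tp s i j k l (dist5_iff.2 ⟨hi, hj, hk, hl, hij, hik, hil, hjk, hjl, hkl⟩)
  rw [w3 hij hi hj, w3 hkl hk hl, w3 hik hi hk, w3 hjl hj hl, w3 hil hi hl, w3 hjk hj hk]
  exact_mod_cast h

/-- `w` is not linear on triples -/
lemma w_nonlinear (t : ℝ) (c : Fin 9 → ℝ)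
    (h : ∀ B : Finset (Fin 9), B.card = 3 → w B = t + ∑ i ∈ B, c i) : False := by
  have h1 := h _ (card3 (s := 0) (i := 1) (j := 2) (by decide) (by decide) (by decide))
  have h2 := h _ (card3 (s := 0) (i := 3) (j := 4) (by decide) (by decide) (by decide))
  have h3 := h _ (card3 (s := 0) (i := 1) (j := 4) (by decide) (by decide) (by decide))
  have h4 := h _ (card3 (s := 0) (i := 2) (j := 3) (by decide) (by decide) (by decide))
  rw [sum3 c (by decide) (by decide) (by decide), w3 (by decide) (by decide) (by decide)]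
    at h1 h2 h3 h4
  have b1 : g (cd 1 2 0) = 0 := by decide +kernel
  have b2 : g (cd 3 4 0) = 0 := by decide +kernel
  have b3 : g (cd 1 4 0) = 1 := by decide +kernel
  have b4 : g (cd 2 3 0) = 0 := by decide +kernel
  rw [b1] at h1
  rw [b2] at h2
  rw [b3] at h3
  rw [b4] at h4
  push_cast at h1 h2 h3 h4
  linarith

lemma w_nontriv : ¬ ∃ c : Fin 9 → ℝ, ∀ B : Finset (Fin 9), B.card = 3 →
    ∀ B' : Finset (Fin 9), B'.card = 3 →
      w B - ∑ i ∈ B, c i ≤ w B' - ∑ i ∈ B', c i := by
  rintro ⟨c, hc⟩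
  refine w_nonlinear (w {0, 1, 2} - ∑ i ∈ ({0, 1, 2} : Finset (Fin 9)), c i) c fun B hB => ?_
  have h1 := hc B hB {0, 1, 2} (by decide)
  have h2 := hc {0, 1, 2} (by decide) B hB
  linarith

lemma cell_scale {v : Finset (Fin 9) → ℝ} {t : ℝ} {a : Fin 9 → ℝ} (ht : 0 < t)
    (h : ∀ B : Finset (Fin 9), B.card = 3 → v B = t * w B + ∑ i ∈ B, a i) (c : Fin 9 → ℝ) :
    cell 3 w c = cell 3 v (fun i => t * c i + a i) := by
  ext B
  simp only [cell, Set.mem_ofPred_eq]
  refine and_congr_right fun hB => forall_congr' fun B' => ?_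
  refine forall_congr' fun hB' => ?_
  rw [h B hB, h B' hB', Finset.sum_add_distrib, Finset.sum_add_distrib, ← Finset.mul_sum,
    ← Finset.mul_sum]
  constructor
  · intro h1
    have := mul_le_mul_of_nonneg_left h1 ht.le
    linarith
  · intro h1
    have h2 : t * (w B - ∑ i ∈ B, c i) ≤ t * (w B' - ∑ i ∈ B', c i) := by linarith
    exact le_of_mul_le_mul_left h2 ht

lemma cell_scale' {v : Finset (Fin 9) → ℝ} {t : ℝ} {a : Fin 9 → ℝ} (ht : 0 < t)
    (h : ∀ B : Finset (Fin 9), B.card = 3 → v B = t * w B + ∑ i ∈ B, a i) (c : Fin 9 → ℝ) :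
    cell 3 v c = cell 3 w (fun i => (c i - a i) / t) := by
  rw [cell_scale ht h]
  congr 1
  ext i
  field_simp
  ring

/-- corank function on triples -/
noncomputable def rho (M : Matroid (Fin 9)) (B : Finset (Fin 9)) : ℝ :=
  ((3 : ℕ) : ℝ) - ((M.eRk (B : Set (Fin 9))).toNat : ℝ)

lemma rk_insert_le (M : Matroid (Fin 9)) (e : Fin 9) (X : Set (Fin 9)) :
    (M.eRk (insert e X)).toNat ≤ (M.eRk X).toNat + 1 := by
  have h := M.eRk_insert_le_add_one e X
  have hX : M.eRk X ≠ ⊤ := by
    have : M.eRk X ≤ X.encard := M.eRk_le_encard X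
    exact ne_top_of_le_ne_top (Set.encard_ne_top_iff.2 (Set.toFinite X)) this
  obtain ⟨m, hm⟩ := ENat.ne_top_iff_exists.1 hX
  rw [← hm] at h ⊢
  have h3 : M.eRk (insert e X) ≤ ((m + 1 : ℕ) : ℕ∞) := by exact_mod_cast h
  have h2 : (M.eRk (insert e X)).toNat ≤ ((m + 1 : ℕ) : ℕ∞).toNat :=
    ENat.toNat_le_toNat h3 (ENat.natCast_ne_top (m + 1))
  simpa only [ENat.toNat_natCast] using h2

lemma rk_mono (M : Matroid (Fin 9)) {X Y : Set (Fin 9)} (h : X ⊆ Y) :
    (M.eRk X).toNat ≤ (M.eRk Y).toNat := by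
  refine ENat.toNat_le_toNat (M.eRk_mono h) ?_
  exact ne_top_of_le_ne_top (Set.encard_ne_top_iff.2 (Set.toFinite Y)) (M.eRk_le_encard Y)

/-- changing one element changes the rank by at most one -/
lemma rho_swap (M : Matroid (Fin 9)) (x y : Fin 9) (S : Finset (Fin 9)) :
    rho M (insert x S) ≤ rho M (insert y S) + 1 := by
  unfold rho
  have h1 : (M.eRk ((insert y S : Finset (Fin 9)) : Set (Fin 9))).toNat ≤
      (M.eRk ((insert x S : Finset (Fin 9)) : Set (Fin 9))).toNat + 1 := by
    refine (rk_mono M (Y := insert y ((insert x S : Finset (Fin 9)) : Set (Fin 9))) ?_).trans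
      (rk_insert_le M y _)
    rw [Finset.coe_insert, Finset.coe_insert]
    exact Set.insert_subset_insert (Set.subset_insert _ _)
  have h2 : ((M.eRk ((insert y S : Finset (Fin 9)) : Set (Fin 9))).toNat : ℝ) ≤
      ((M.eRk ((insert x S : Finset (Fin 9)) : Set (Fin 9))).toNat : ℝ) + 1 := by
    exact_mod_cast h1
  linarith

/-- no matroid has the subdivision of `w` as corank subdivision -/
lemma no_corank (M : Matroid (Fin 9))
    (h1 : ∀ c : Fin 9 → ℝ, ∃ c' : Fin 9 → ℝ, cell 3 w c = cell 3 (rho M) c')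
    (h2 : ∀ c : Fin 9 → ℝ, ∃ c' : Fin 9 → ℝ, cell 3 (rho M) c = cell 3 w c') : False := by
  obtain ⟨t, a, ht, h⟩ := rigid (rho M) fun c => by
    obtain ⟨c', hc'⟩ := h1 c
    exact ⟨c', hc'.subset⟩
  -- `t ≠ 0`
  have ht0 : t ≠ 0 := by
    rintro rfl
    obtain ⟨c', hc'⟩ := h2 a
    refine w_nontriv ⟨c', fun B hB B' hB' => ?_⟩
    have hmem : B ∈ cell 3 (rho M) a := by
      refine ⟨hB, fun B'' hB'' => ?_⟩
      rw [h B hB, h B'' hB'']
      simp
    rw [hc'] at hmem
    exact hmem.2 B' hB'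
  have htpos : 0 < t := lt_of_le_of_ne ht (Ne.symm ht0)
  -- integrality from the octahedron `s = 0`
  have c1 := h _ (card3 (s := 0) (i := 1) (j := 2) (by decide) (by decide) (by decide))
  have c2 := h _ (card3 (s := 0) (i := 3) (j := 4) (by decide) (by decide) (by decide))
  have c3 := h _ (card3 (s := 0) (i := 1) (j := 4) (by decide) (by decide) (by decide))
  have c4 := h _ (card3 (s := 0) (i := 2) (j := 3) (by decide) (by decide) (by decide))
  rw [sum3 a (by decide) (by decide) (by decide), w3 (by decide) (by decide) (by decide)]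
    at c1 c2 c3 c4
  have b1 : g (cd 1 2 0) = 0 := by decide +kernel
  have b2 : g (cd 3 4 0) = 0 := by decide +kernel
  have b3 : g (cd 1 4 0) = 1 := by decide +kernel
  have b4 : g (cd 2 3 0) = 0 := by decide +kernel
  rw [b1] at c1
  rw [b2] at c2
  rw [b3] at c3
  rw [b4] at c4
  have hint : ∃ z : ℤ, t = (z : ℝ) := by
    refine ⟨((M.eRk ((insert 1 (insert 2 {0}) : Finset (Fin 9)) : Set (Fin 9))).toNat : ℤ) +
      ((M.eRk ((insert 3 (insert 4 {0}) : Finset (Fin 9)) : Set (Fin 9))).toNat : ℤ) -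
      ((M.eRk ((insert 1 (insert 4 {0}) : Finset (Fin 9)) : Set (Fin 9))).toNat : ℤ) -
      ((M.eRk ((insert 2 (insert 3 {0}) : Finset (Fin 9)) : Set (Fin 9))).toNat : ℤ), ?_⟩
    unfold rho at c1 c2 c3 c4
    push_cast at c1 c2 c3 c4 ⊢
    linarith
  obtain ⟨z, hz⟩ := hint
  have hz1 : (1 : ℝ) ≤ t := by
    rw [hz] at htpos ⊢
    have : 0 < z := by exact_mod_cast htpos
    exact_mod_cast this
  -- the octahedron `s = 6`, `i j k l = 0 2 5 1` with gap three
  have k1 := h _ (card3 (s := 6) (i := 0) (j := 2) (by decide) (by decide) (by decide))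
  have k2 := h _ (card3 (s := 6) (i := 5) (j := 1) (by decide) (by decide) (by decide))
  have k3 := h _ (card3 (s := 6) (i := 0) (j := 1) (by decide) (by decide) (by decide))
  have k4 := h _ (card3 (s := 6) (i := 2) (j := 5) (by decide) (by decide) (by decide))
  rw [sum3 a (by decide) (by decide) (by decide), w3 (by decide) (by decide) (by decide)]
    at k1 k2 k3 k4
  have d1 : g (cd 0 2 6) = 0 := by decide +kernel
  have d2 : g (cd 5 1 6) = 0 := by decide +kernel
  have d3 : g (cd 0 1 6) = 2 := by decide +kernel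
  have d4 : g (cd 2 5 6) = 1 := by decide +kernel
  rw [d1] at k1
  rw [d2] at k2
  rw [d3] at k3
  rw [d4] at k4
  -- `{0,1,6}` versus `{0,2,6}`, `{2,5,6}` versus `{1,5,6}`
  have s1 : rho M (insert 0 (insert 1 {6})) ≤ rho M (insert 0 (insert 2 {6})) + 1 := by
    have := rho_swap M 1 2 (insert 0 {6})
    rwa [Finset.insert_comm 1 0, Finset.insert_comm 2 0] at this
  have s2 : rho M (insert 2 (insert 5 {6})) ≤ rho M (insert 5 (insert 1 {6})) + 1 := by
    have := rho_swap M 2 1 (insert 5 {6})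
    rwa [Finset.insert_comm 1 5] at this
  push_cast at k1 k2 k3 k4
  linarith

end Pool.Agent.TH427.Dr
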